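import Pool.Agent.Helper4.HZ.Goals

/-!
# Project HZ, packet ZFL: the Dirichlet series of the `6`-full numbers
-/

namespace Pool.Agent.Helper72.HZ

open Pool.Agent.Helper4.HZ

/-- The prime powers `p ^ j`, `6 ≤ j ≤ 11`. -/
def PA : Set ℕ := {m | ∃ p : ℕ, p.Prime ∧ ∃ j : ℕ, 6 ≤ j ∧ j ≤ 11 ∧ m = p ^ j}

theorem PA_two_le : ∀ a ∈ PA, 2 ≤ a := by
  rintro a ⟨p, hp, j, hj, -, rfl⟩
  calc 2 ≤ p := hp.two_le
    _ = p ^ 1 := (pow_one p).symm
    _ ≤ p ^ j := Nat.pow_le_pow_right hp.pos (by omega)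

theorem pow_mem_closure {p : ℕ} (hp : p.Prime) : ∀ e : ℕ, 6 ≤ e → p ^ e ∈ Submonoid.closure PA := by
  intro e
  induction e using Nat.strong_induction_on with
  | _ e ih =>
    intro he
    rcases Nat.lt_or_ge 11 e with h | h
    · have h1 : p ^ e = p ^ 6 * p ^ (e - 6) := by
        rw [← pow_add]
        congr 1
        omega
      rw [h1]
      refine mul_mem (Submonoid.subset_closure ⟨p, hp, 6, le_rfl, by norm_num, rfl⟩) ?_
      exact ih (e - 6) (by omega) (by omega)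
    · exact Submonoid.subset_closure ⟨p, hp, e, he, h, rfl⟩

theorem full_mem_closure (c : ℕ) (hc : c ≠ 0) (h : ∀ p : ℕ, p.Prime → p ∣ c → p ^ 6 ∣ c) :
    c ∈ Submonoid.closure PA := by
  rw [← Nat.prod_factorization_pow_eq_self hc, Finsupp.prod]
  refine Submonoid.prod_mem _ fun p hp ↦ ?_
  rw [Nat.support_factorization, Nat.mem_primeFactors] at hp
  refine pow_mem_closure hp.1 _ ?_
  exact (hp.1.pow_dvd_iff_le_factorization hc).mp (h p hp.1 hp.2.1)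

theorem Z_mono (s : ℝ) {A B : Set ℕ} (h : A ⊆ B) : Z s A ≤ Z s B := by
  unfold Z
  exact ENNReal.tsum_mono_subtype (fun n : ℕ ↦ ENNReal.ofReal ((n : ℝ) ^ (-s))) h

theorem Z_PA (s : ℝ) (hs : 1 / 6 < s) : Z s PA < ⊤ := by
  classical
  have hs0 : 0 < s := by linarith
  set h : Fin 6 × ℕ → ENNReal := fun x ↦
    ENNReal.ofReal ((((x.2 ^ (6 + (x.1 : ℕ)) : ℕ) : ℝ)) ^ (-s)) with hh
  have hex : ∀ a : PA, ∃ x : Fin 6 × ℕ, (a : ℕ) = x.2 ^ (6 + (x.1 : ℕ)) := by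
    rintro ⟨a, p, hp, j, hj, hj', rfl⟩
    refine ⟨(⟨j - 6, by omega⟩, p), ?_⟩
    change p ^ j = p ^ (6 + (j - 6))
    congr 1
    omega
  choose φ hφ using hex
  have hinj : Function.Injective φ := by
    intro a b hab
    apply Subtype.ext
    rw [hφ a, hφ b, hab]
  have h1 : Z s PA ≤ ∑' x, h x := by
    unfold Z
    calc ∑' n : PA, ENNReal.ofReal (((n : ℕ) : ℝ) ^ (-s)) = ∑' n : PA, h (φ n) := by
          refine tsum_congr fun n ↦ ?_
          rw [hh]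
          change _ = ENNReal.ofReal ((((φ n).2 ^ (6 + ((φ n).1 : ℕ)) : ℕ) : ℝ) ^ (-s))
          rw [← hφ n]
      _ ≤ ∑' x, h x := ENNReal.tsum_comp_le_tsum_of_injective hinj h
  refine h1.trans_lt ?_
  rw [ENNReal.tsum_prod', tsum_fintype, ENNReal.sum_lt_top]
  intro j _
  have h2 : ∀ n : ℕ, h (j, n) = ENNReal.ofReal ((n : ℝ) ^ (-((6 + ((j : ℕ) : ℝ)) * s))) := by
    intro n
    rw [hh]
    change ENNReal.ofReal (((n ^ (6 + (j : ℕ)) : ℕ) : ℝ) ^ (-s)) = _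
    congr 1
    rw [Nat.cast_pow, ← Real.rpow_natCast, ← Real.rpow_mul (Nat.cast_nonneg n)]
    congr 1
    push_cast
    ring
  have h3 : Summable (fun n : ℕ ↦ (n : ℝ) ^ (-((6 + ((j : ℕ) : ℝ)) * s))) := by
    rw [Real.summable_nat_rpow]
    have : (0 : ℝ) ≤ ((j : ℕ) : ℝ) := Nat.cast_nonneg _
    nlinarith
  rw [tsum_congr h2]
  exact h3.tsum_ofReal_lt_top

/-- **ZFL**. -/
theorem ZFL_holds (hZGN : S_ZGN) : S_ZFL := by
  intro s hs
  have h1 : {c : ℕ | c ≠ 0 ∧ ∀ p : ℕ, p.Prime → p ∣ c → p ^ 6 ∣ c} ⊆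
      (Submonoid.closure PA : Set ℕ) := fun c hc ↦ full_mem_closure c hc.1 hc.2
  exact (Z_mono s h1).trans_lt (hZGN s PA (by linarith) PA_two_le (Z_PA s hs))

end Pool.Agent.Helper72.HZ
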